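import Pool.Agent.MP_845d3b_gt.Final

namespace Pool.Agent.Results.MP_845d3b_gt.Disproof

open Pool.Agent.MP_845d3b_gt

/-- In the Gaussian plane there is a regular stationary stable partition into four cells without
product structure that has an interface not contained in a line. -/
theorem result : ∃ Ω : Fin 4 → Set ℂ, IsPartition Ω ∧ IsRegular Ω ∧ Stationary Ω ∧ Stable Ω ∧
    IndexStable Ω ∧ ¬ HasProductStructure Ω ∧ ¬ FlatInterfaces Ω :=
  main

end Pool.Agent.Results.MP_845d3b_gt.Disproof
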